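import Pool.Agent.WK7.Stmts

/-!
# MP_7d2497_an, squad WK7, row UNK: functions killing the right translates kill all translates
-/

set_option autoImplicit false

namespace Pool.Agent.WK7.H10

open MeasureTheory Filter Topology Complex
open Pool.Agent.H78E Pool.Agent.WKS Pool.Agent.WK5 Pool.Agent.WK7

noncomputable section

variable {φ : ℝ → ℝ}

/-- a measurable representative -/
theorem rep10 {G : ℝ → ℂ} (hG : LInf φ G) (hφ : IsWeight φ) :
    ∃ (G' : ℝ → ℂ) (C : ℝ), 0 ≤ C ∧ Measurable G' ∧ (∀ t, ‖G' t‖ ≤ C * φ t) ∧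
      G' =ᵐ[volume] G := by
  obtain ⟨hm, C, hC⟩ := hG
  have m1 : Measurable (hm.mk G) := hm.stronglyMeasurable_mk.measurable
  have m2 : MeasurableSet {t | ‖hm.mk G t‖ ≤ C * φ t} :=
    measurableSet_le m1.norm (hφ.meas.const_mul C)
  refine ⟨{t | ‖hm.mk G t‖ ≤ C * φ t}.indicator (hm.mk G), |C|, abs_nonneg C, m1.indicator m2,
    ?_, ?_⟩
  · intro t
    have hp : 0 ≤ φ t := zero_le_one.trans (hφ.one_le t)
    by_cases h : t ∈ {t | ‖hm.mk G t‖ ≤ C * φ t}
    · rw [Set.indicator_of_mem h]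
      have h' : ‖hm.mk G t‖ ≤ C * φ t := h
      exact h'.trans (mul_le_mul_of_nonneg_right (le_abs_self C) hp)
    · rw [Set.indicator_of_notMem h, norm_zero]
      positivity
  · filter_upwards [hm.ae_eq_mk, hC] with t h1 h2
    rw [Set.indicator_of_mem]
    · exact h1.symm
    · show ‖hm.mk G t‖ ≤ C * φ t
      rw [← h1]
      exact h2

theorem expR_linf (hφ : IsWeight φ) (x : ℝ) : LInf φ (expR x) := by
  have h1 : ∀ t : ℝ, ‖expR x t‖ = 1 := by
    intro t
    unfold expR
    rw [Complex.norm_exp]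
    simp
  refine ⟨?_, 1, Eventually.of_forall fun t => ?_⟩
  · apply Continuous.aestronglyMeasurable
    unfold expR
    fun_prop
  · rw [h1, one_mul]
    exact hφ.one_le t

theorem mem_Spec (hφ : IsWeight φ) {G : ℝ → ℂ} (hG : LInf φ G)
    (x : ℝ) : x ∈ Spec φ G ↔ ∀ f : ℝ → ℂ, L1 φ f → (∀ s : ℝ, ∫ t : ℝ, f t * G (t + s) = 0) →
      ∫ t : ℝ, f t * expR x t = 0 :=
  bipolar φ hφ G (expR x) hG (expR_linf hφ x)

theorem ae_add {p : ℝ → Prop} (s : ℝ) (h : ∀ᵐ t : ℝ, p t) : ∀ᵐ t : ℝ, p (t + s) :=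
  (measurePreserving_add_right volume s).quasiMeasurePreserving.ae h

/-- the kernel bound -/
theorem ker_bound (hφ : IsWeight φ) {G' : ℝ → ℂ} {C : ℝ} (hC : 0 ≤ C)
    (hb : ∀ t, ‖G' t‖ ≤ C * φ t) (f : ℝ → ℂ) (t s : ℝ) :
    ‖f t * G' (t + s)‖ ≤ C * φ s * (φ t * ‖f t‖) := by
  have h0 : 0 ≤ φ t := zero_le_one.trans (hφ.one_le t)
  have h1 : 0 ≤ φ s := zero_le_one.trans (hφ.one_le s)
  rw [norm_mul]
  calc ‖f t‖ * ‖G' (t + s)‖ ≤ ‖f t‖ * (C * φ (t + s)) := by gcongr; exact hb _
    _ ≤ ‖f t‖ * (C * (φ t * φ s)) := by gcongr; exact hφ.submul t s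
    _ = _ := by ring

theorem unk (hU : UnqStmt) : UnkStmt := by
  intro φ hφ G hG hS F hF
  obtain ⟨f, hf1, hf0, hfe⟩ := ofYW hφ F
  obtain ⟨G', C, hC, hGm, hGb, hGe⟩ := rep10 hG hφ
  obtain ⟨f', hf'⟩ : ∃ f' : ℝ → ℂ, f' = hf1.1.mk f := ⟨_, rfl⟩
  have hfm : Measurable f' := by rw [hf']; exact hf1.1.stronglyMeasurable_mk.measurable
  have hff : f' =ᵐ[volume] f := by rw [hf']; exact hf1.1.ae_eq_mk.symm
  have hfi : Integrable (fun t : ℝ => φ t * ‖f' t‖) volume := by
    refine hf1.2.congr ?_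
    filter_upwards [hff] with t ht
    rw [ht]
  have hkey : ∀ s : ℝ, ∫ t : ℝ, ((dv φ F : X) : ℝ → ℂ) t * G (t + s) =
      ∫ t : ℝ, f' t * G' (t + s) := by
    intro s
    apply integral_congr_ae
    filter_upwards [hfe, hff, ae_add s hGe] with t h1 h2 h3
    rw [h1, h2, h3]
  obtain ⟨u, hu⟩ : ∃ u : ℝ → ℂ, u = fun s => ∫ t : ℝ, f' t * G' (t + s) := ⟨_, rfl⟩
  have hus : ∀ s, u s = ∫ t : ℝ, f' t * G' (t + s) := fun s => by rw [hu]
  have hum : StronglyMeasurable u := by
    rw [hu]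
    apply StronglyMeasurable.integral_prod_right
    apply Measurable.stronglyMeasurable
    apply (hfm.comp measurable_snd).mul
    exact hGm.comp (measurable_snd.add measurable_fst)
  have hub : ∀ s, ‖u s‖ ≤ C * (∫ t : ℝ, φ t * ‖f' t‖) * φ s := by
    intro s
    rw [hus]
    calc ‖∫ t : ℝ, f' t * G' (t + s)‖ ≤ ∫ t : ℝ, C * φ s * (φ t * ‖f' t‖) :=
          norm_integral_le_of_norm_le (hfi.const_mul _)
            (Eventually.of_forall fun t => ker_bound hφ hC hGb f' t s)
      _ = _ := by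
          rw [integral_const_mul]
          ring
  have huL : LInf φ u := ⟨hum.aestronglyMeasurable, _, Eventually.of_forall hub⟩
  have hspec : Spec φ u ⊆ Spec φ G := by
    intro x hx
    rw [mem_Spec hφ hG]
    rw [mem_Spec hφ huL] at hx
    intro h hh hhG
    apply hx h hh
    intro s
    obtain ⟨h', hh'⟩ : ∃ h' : ℝ → ℂ, h' = hh.1.mk h := ⟨_, rfl⟩
    have hhm : Measurable h' := by rw [hh']; exact hh.1.stronglyMeasurable_mk.measurable
    have hhe : h' =ᵐ[volume] h := by rw [hh']; exact hh.1.ae_eq_mk.symm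
    have hhi : Integrable (fun t : ℝ => φ t * ‖h' t‖) volume := by
      refine hh.2.congr ?_
      filter_upwards [hhe] with t ht
      rw [ht]
    have e1 : ∫ t : ℝ, h t * u (t + s) =
        ∫ t : ℝ, ∫ r : ℝ, h' t * (f' r * G' (r + (t + s))) := by
      apply integral_congr_ae
      filter_upwards [hhe] with t ht
      rw [hus, ← ht, integral_const_mul]
    have hint : Integrable (Function.uncurry fun t r : ℝ => h' t * (f' r * G' (r + (t + s))))
        (volume.prod volume) := by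
      refine ((hhi.mul_prod hfi).const_mul (C * φ s)).mono' ?_ ?_
      · apply Measurable.aestronglyMeasurable
        apply (hhm.comp measurable_fst).mul
        apply (hfm.comp measurable_snd).mul
        exact hGm.comp (measurable_snd.add (measurable_fst.add_const s))
      · refine Eventually.of_forall fun z => ?_
        obtain ⟨t, r⟩ := z
        show ‖h' t * (f' r * G' (r + (t + s)))‖ ≤ C * φ s * ((φ t * ‖h' t‖) * (φ r * ‖f' r‖))
        rw [norm_mul]
        have h1 := ker_bound hφ hC hGb f' r (t + s)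
        have h2 := hφ.submul t s
        have h3 : 0 ≤ φ r := zero_le_one.trans (hφ.one_le r)
        calc ‖h' t‖ * ‖f' r * G' (r + (t + s))‖ ≤ ‖h' t‖ * (C * φ (t + s) * (φ r * ‖f' r‖)) := by
              gcongr
          _ ≤ ‖h' t‖ * (C * (φ t * φ s) * (φ r * ‖f' r‖)) := by gcongr
          _ = _ := by ring
    rw [e1, integral_integral_swap hint]
    have e2 : ∀ r : ℝ, ∫ t : ℝ, h' t * (f' r * G' (r + (t + s))) = 0 := by
      intro r
      have e3 : ∫ t : ℝ, h' t * (f' r * G' (r + (t + s))) =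
          f' r * ∫ t : ℝ, h t * G (t + (r + s)) := by
        rw [← integral_const_mul]
        apply integral_congr_ae
        filter_upwards [hhe, ae_add (r + s) hGe] with t h1 h2
        have h4 : r + (t + s) = t + (r + s) := by ring
        rw [h1, h4, h2]
        ring
      rw [e3, hhG, mul_zero]
    simp only [e2, integral_zero]
  have hne : Spec φ u ≠ Set.univ := by
    intro h
    apply hS
    exact Set.eq_univ_of_univ_subset (h ▸ hspec)
  have hu0 : u =ᵐ[volume] 0 := by
    apply hU φ hφ u huL hne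
    refine Eventually.of_forall fun t ht => ?_
    rw [hus, ← hkey]
    exact hF t ht
  intro s
  -- the functional of the translate
  obtain ⟨g, hg⟩ : ∃ g : ℝ → ℂ, g = fun t => if 0 ≤ t then G (t + s) else 0 := ⟨_, rfl⟩
  have hgL : LInfPos φ g := by
    obtain ⟨h1, C1, h2⟩ := hG.shift72 hφ s
    refine ⟨⟨?_, |C1|, ?_⟩, ?_⟩
    · rw [hg]
      have h3 : (fun t : ℝ => if 0 ≤ t then G (t + s) else 0) =
          (Set.Ici (0 : ℝ)).indicator (shift s G) := by
        funext t
        by_cases h0 : 0 ≤ t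
        · have h4 : t ∈ Set.Ici (0 : ℝ) := h0
          rw [if_pos h0, Set.indicator_of_mem h4]
          rfl
        · have h4 : t ∉ Set.Ici (0 : ℝ) := h0
          rw [if_neg h0, Set.indicator_of_notMem h4]
      rw [h3]
      exact h1.indicator measurableSet_Ici
    · filter_upwards [h2] with t ht
      have hp : 0 ≤ φ t := zero_le_one.trans (hφ.one_le t)
      rw [hg]
      by_cases h0 : 0 ≤ t
      · simp only [if_pos h0]
        exact ht.trans (mul_le_mul_of_nonneg_right (le_abs_self C1) hp)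
      · simp only [if_neg h0, norm_zero]
        positivity
    · intro t ht
      rw [hg]
      simp only [if_neg (not_le.mpr ht)]
  obtain ⟨l, hl⟩ := exists_functionalW hφ hgL
  have hk : ∀ v : ℝ, 0 ≤ v → l (YW φ (max v 0) F) = u (v + s) := by
    intro v hv
    rw [max_eq_left hv, repW_shift hφ hl hv, hus, ← hkey]
    apply integral_congr_ae
    have hneg : ∀ᵐ t : ℝ, t < 0 → ((dv φ F : X) : ℝ → ℂ) t = 0 := (dv φ F).2
    filter_upwards [hneg] with t ht
    by_cases h0 : 0 ≤ t
    · rw [hg]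
      simp only [if_pos (add_nonneg h0 hv)]
      rw [add_assoc]
    · rw [ht (not_le.mp h0), zero_mul, zero_mul]
  have hcont : Continuous fun v : ℝ => l (YW φ (max v 0) F) := l.continuous.comp (YW_continuous hφ F)
  have hae : ∀ᵐ v : ℝ, u (v + s) = 0 := by
    filter_upwards [ae_add s hu0] with v hv
    rw [hv]
    rfl
  rw [hkey, ← hus]
  have h00 : l (YW φ (max 0 0) F) = u s := by
    rw [hk 0 le_rfl, zero_add]
  rw [← h00]
  by_contra hne0
  have hop : IsOpen {v : ℝ | l (YW φ (max v 0) F) ≠ 0} := isOpen_ne_fun hcont continuous_const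
  obtain ⟨ε, hε, hball⟩ := Metric.isOpen_iff.mp hop 0 hne0
  obtain ⟨v, hv, hv2⟩ : ∃ v ∈ Set.Ioo (0 : ℝ) ε, u (v + s) = 0 := by
    by_contra hcon
    push Not at hcon
    have hm : volume (Set.Ioo (0 : ℝ) ε) = 0 :=
      measure_mono_null (fun v hv => hcon v hv) (ae_iff.mp hae)
    rw [Real.volume_Ioo, ENNReal.ofReal_eq_zero] at hm
    linarith
  have h5 : v ∈ Metric.ball (0 : ℝ) ε := by
    rw [Metric.mem_ball, Real.dist_eq, sub_zero, abs_of_pos hv.1]
    exact hv.2
  have h6 := hball h5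
  apply h6
  show l (YW φ (max v 0) F) = 0
  rw [hk v hv.1.le, hv2]

end

end Pool.Agent.WK7.H10
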